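import Pool.Agent.LibSchK.K5

/-!
# The determinant inequality `(T₁ - K) (T₀ - K) ≥ (chord - K) ^ 2`
-/

open Set Filter Topology

namespace SchK

section

variable {b : ℝ} (hb0 : 0 < b) (hb1 : b < 1)

include hb0 hb1 in
theorem K1_eq {y : ℝ} (hy : 0 < y) : K1 b y = (4 + 2 * b ^ 2) / (3 * b) -
    2 * (1 - b ^ 2) * (4 - b ^ 2) / (3 * b) *
      ((2 * Real.tanh y ^ 2 - Real.tanh y ^ 4) * Ff b y -
        Real.tanh y ^ 4 * (1 - Real.tanh y ^ 2) * F1 b y) / Ff b y ^ 2 := by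
  have h1 := tangent_sub hb0 hb1 hy
  have hG := (F_pos hb0 hb1 hy).ne'
  have hq := (one_sub_sq_pos y).ne'
  have ht := (tanh_pos hy).ne'
  have hb := hb0.ne'
  have hX := cosh_two y
  have hX2 : Real.cosh (2 * y) ^ 2 - 1 ≠ 0 := by
    have e : Real.cosh (2 * y) ^ 2 - 1 = 4 * Real.tanh y ^ 2 / (1 - Real.tanh y ^ 2) ^ 2 := by
      rw [hX]; field_simp; ring
    rw [e]
    positivity
  have hK : Kf b y = 4 / b + (4 + 2 * b ^ 2) / (3 * b) * (Real.cosh (2 * y) - 1) -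
      4 * (1 - b ^ 2) * (4 - b ^ 2) / (3 * b) * Real.tanh y ^ 4 /
      ((1 - Real.tanh y ^ 2) * Ff b y) := by linarith
  have hY : Yf b y = (Ff b y + (4 - b ^ 2) * Real.tanh y ^ 2) / 3 := by
    rw [Ff]; ring
  have hden : 2 * Real.tanh y ^ 2 * (1 - Real.tanh y ^ 2) ≠ 0 := by positivity
  rw [K1, div_eq_iff hX2, hK, F1, D1, Df, hY, hX]
  generalize Ff b y = G at *
  generalize Real.tanh y = t at *
  have hq' : 1 - t ^ 2 ≠ 0 := hq
  field_simp
  ring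

include hb0 hb1 in
/-- **the determinant inequality** -/
theorem kraus {x y : ℝ} (hx : 0 < x) (hy : 0 < y) :
    (4 / b + (Kf b y - 4 / b) / (Real.cosh (2 * y) - 1) * (Real.cosh (2 * x) - 1) - Kf b x) ^ 2 ≤
    (4 / b + (4 + 2 * b ^ 2) / (3 * b) * (Real.cosh (2 * x) - 1) - Kf b x) *
      (Kf b y + K1 b y * (Real.cosh (2 * x) - Real.cosh (2 * y)) - Kf b x) := by
  have hF0 := F_pos hb0 hb1 hx
  have hG0 := F_pos hb0 hb1 hy
  have hF := hF0.ne'
  have hG := hG0.ne'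
  have hq := (one_sub_sq_pos x).ne'
  have hp := (one_sub_sq_pos y).ne'
  have ht := (tanh_pos hx).ne'
  have hs := (tanh_pos hy).ne'
  have hb := hb0.ne'
  have hKx : Kf b x = 4 / b + (4 + 2 * b ^ 2) / (3 * b) * (Real.cosh (2 * x) - 1) -
      4 * (1 - b ^ 2) * (4 - b ^ 2) / (3 * b) * Real.tanh x ^ 4 /
      ((1 - Real.tanh x ^ 2) * Ff b x) := by linarith [tangent_sub hb0 hb1 hx]
  have hKy : Kf b y = 4 / b + (4 + 2 * b ^ 2) / (3 * b) * (Real.cosh (2 * y) - 1) -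
      4 * (1 - b ^ 2) * (4 - b ^ 2) / (3 * b) * Real.tanh y ^ 4 /
      ((1 - Real.tanh y ^ 2) * Ff b y) := by linarith [tangent_sub hb0 hb1 hy]
  have hT := F_tangent hb0 hb1 hx hy
  have hY0 : Real.cosh (2 * y) - 1 ≠ 0 := by
    have e : Real.cosh (2 * y) - 1 = 2 * Real.tanh y ^ 2 / (1 - Real.tanh y ^ 2) := by
      rw [cosh_two]; field_simp; ring
    rw [e]
    positivity
  have hch : 4 / b + (Kf b y - 4 / b) / (Real.cosh (2 * y) - 1) * (Real.cosh (2 * x) - 1) -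
      Kf b x = 4 * (1 - b ^ 2) * (4 - b ^ 2) / (3 * b) * Real.tanh x ^ 2 /
        (1 - Real.tanh x ^ 2) * (Real.tanh x ^ 2 / Ff b x - Real.tanh y ^ 2 / Ff b y) := by
    have e : (Kf b y - 4 / b) / (Real.cosh (2 * y) - 1) = (4 + 2 * b ^ 2) / (3 * b) -
        2 * (1 - b ^ 2) * (4 - b ^ 2) / (3 * b) * Real.tanh y ^ 2 / Ff b y := by
      rw [div_eq_iff hY0, hKy, cosh_two y]
      field_simp
      ring
    rw [e, hKx, cosh_two x]
    field_simp
    ring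
  have h0 : Kf b y + K1 b y * (Real.cosh (2 * x) - Real.cosh (2 * y)) - Kf b x =
      4 * (1 - b ^ 2) * (4 - b ^ 2) / (3 * b) *
        (Real.tanh x ^ 4 / ((1 - Real.tanh x ^ 2) * Ff b x) -
          Real.tanh y ^ 4 / ((1 - Real.tanh y ^ 2) * Ff b y) -
          ((2 * Real.tanh y ^ 2 - Real.tanh y ^ 4) * Ff b y -
            Real.tanh y ^ 4 * (1 - Real.tanh y ^ 2) * F1 b y) *
            (Real.tanh x ^ 2 - Real.tanh y ^ 2) /
            (Ff b y ^ 2 * (1 - Real.tanh x ^ 2) * (1 - Real.tanh y ^ 2))) := by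
    rw [K1_eq hb0 hb1 hy, hKx, hKy, cosh_two x, cosh_two y]
    generalize Ff b x = F at *
    generalize Ff b y = G at *
    generalize F1 b y = G' at *
    generalize Real.tanh x = t at *
    generalize Real.tanh y = s at *
    have hq' : 1 - t ^ 2 ≠ 0 := hq
    have hp' : 1 - s ^ 2 ≠ 0 := hp
    field_simp
    ring
  rw [hch, h0, tangent_sub hb0 hb1 hx]
  rw [← sub_nonneg]
  have key : 4 * (1 - b ^ 2) * (4 - b ^ 2) / (3 * b) * Real.tanh x ^ 4 /
      ((1 - Real.tanh x ^ 2) * Ff b x) *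
      (4 * (1 - b ^ 2) * (4 - b ^ 2) / (3 * b) *
        (Real.tanh x ^ 4 / ((1 - Real.tanh x ^ 2) * Ff b x) -
          Real.tanh y ^ 4 / ((1 - Real.tanh y ^ 2) * Ff b y) -
          ((2 * Real.tanh y ^ 2 - Real.tanh y ^ 4) * Ff b y -
            Real.tanh y ^ 4 * (1 - Real.tanh y ^ 2) * F1 b y) *
            (Real.tanh x ^ 2 - Real.tanh y ^ 2) /
            (Ff b y ^ 2 * (1 - Real.tanh x ^ 2) * (1 - Real.tanh y ^ 2)))) -
      (4 * (1 - b ^ 2) * (4 - b ^ 2) / (3 * b) * Real.tanh x ^ 2 /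
        (1 - Real.tanh x ^ 2) * (Real.tanh x ^ 2 / Ff b x - Real.tanh y ^ 2 / Ff b y)) ^ 2 =
      (4 * (1 - b ^ 2) * (4 - b ^ 2) / (3 * b)) ^ 2 * Real.tanh x ^ 4 /
        (1 - Real.tanh x ^ 2) ^ 2 * (Real.tanh y ^ 4 / (Ff b x * Ff b y ^ 2)) *
        (Ff b y + F1 b y * (Real.tanh x ^ 2 - Real.tanh y ^ 2) - Ff b x) := by
    generalize Ff b x = F at *
    generalize Ff b y = G at *
    generalize F1 b y = G' at *
    generalize Real.tanh x = t at *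
    generalize Real.tanh y = s at *
    have hq' : 1 - t ^ 2 ≠ 0 := hq
    have hp' : 1 - s ^ 2 ≠ 0 := hp
    field_simp
    ring
  rw [key]
  have h5 : 0 ≤ Ff b y + F1 b y * (Real.tanh x ^ 2 - Real.tanh y ^ 2) - Ff b x := by linarith
  have h6 : 0 ≤ (4 * (1 - b ^ 2) * (4 - b ^ 2) / (3 * b)) ^ 2 * Real.tanh x ^ 4 /
        (1 - Real.tanh x ^ 2) ^ 2 * (Real.tanh y ^ 4 / (Ff b x * Ff b y ^ 2)) := by positivity
  exact mul_nonneg h6 h5

include hb0 hb1 in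
/-- `K` lies below its tangent at `X = 1` -/
theorem tangent_pos {x : ℝ} (hx : 0 < x) :
    0 < 4 / b + (4 + 2 * b ^ 2) / (3 * b) * (Real.cosh (2 * x) - 1) - Kf b x := by
  rw [tangent_sub hb0 hb1 hx]
  have h1 := F_pos hb0 hb1 hx
  have h2 := one_sub_sq_pos x
  have h3 := tanh_pos hx
  have hb2 : b ^ 2 < 1 := by nlinarith
  have h4 : 0 < 4 - b ^ 2 := by linarith
  have h5 : 0 < 1 - b ^ 2 := by linarith
  positivity

include hb0 hb1 in
/-- `K` lies below its tangents -/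
theorem tangent_nonneg {x y : ℝ} (hx : 0 < x) (hy : 0 < y) :
    0 ≤ Kf b y + K1 b y * (Real.cosh (2 * x) - Real.cosh (2 * y)) - Kf b x := by
  have h1 := kraus hb0 hb1 hx hy
  have h2 := tangent_pos hb0 hb1 hx
  exact nonneg_of_mul_nonneg_right ((sq_nonneg _).trans h1) h2

end

end SchK
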