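import Mathlib

/-!
# A maximum principle at a regular singular point; bounds for `tanh (b ρ)`
-/

open Set Filter Topology

namespace SchK

theorem hasDerivAt_minsq (u : ℝ) : HasDerivAt (fun u : ℝ => (min u 0) ^ 2) (2 * min u 0) u := by
  rcases lt_trichotomy u 0 with h | h | h
  · have h1 : (fun u : ℝ => (min u 0) ^ 2) =ᶠ[𝓝 u] fun u => u ^ 2 := by
      filter_upwards [Iio_mem_nhds h] with x hx
      rw [min_eq_left (le_of_lt hx)]
    have h2 : HasDerivAt (fun u : ℝ => u ^ 2) (2 * u) u := by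
      simpa using hasDerivAt_pow 2 u
    rw [min_eq_left h.le]
    exact h2.congr_of_eventuallyEq h1
  · subst h
    rw [min_self, mul_zero, hasDerivAt_iff_isLittleO]
    simp only [min_self, ne_eq, OfNat.ofNat_ne_zero, not_false_eq_true, zero_pow, sub_zero,
      smul_zero]
    refine Asymptotics.IsBigO.trans_isLittleO (g := fun x : ℝ => x ^ 2) ?_ ?_
    · refine Asymptotics.IsBigO.of_bound 1 (Eventually.of_forall fun x => ?_)
      rw [one_mul, Real.norm_eq_abs, Real.norm_eq_abs, abs_of_nonneg (sq_nonneg _),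
        abs_of_nonneg (sq_nonneg _)]
      rcases le_or_gt x 0 with hx | hx
      · rw [min_eq_left hx]
      · rw [min_eq_right hx.le]
        simpa using sq_nonneg x
    · have h2 : HasDerivAt (fun u : ℝ => u ^ 2) 0 0 := by
        simpa using hasDerivAt_pow 2 (0 : ℝ)
      have h3 := hasDerivAt_iff_isLittleO.1 h2
      simpa using h3
  · have h1 : (fun u : ℝ => (min u 0) ^ 2) =ᶠ[𝓝 u] fun _ => 0 := by
      filter_upwards [Ioi_mem_nhds h] with x hx
      rw [min_eq_right (le_of_lt hx)]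
      norm_num
    rw [min_eq_right h.le, mul_zero]
    exact (hasDerivAt_const u (0 : ℝ)).congr_of_eventuallyEq h1

/-- a function which increases where it is negative, and tends to `0` at `0`, is nonnegative -/
theorem max_pr {g g' : ℝ → ℝ} {L : ℝ} (hg : ∀ x ∈ Ioo 0 L, HasDerivAt g (g' x) x)
    (h : ∀ x ∈ Ioo 0 L, g x < 0 → 0 ≤ g' x) (hlim : Tendsto g (𝓝[>] 0) (𝓝 0)) :
    ∀ x ∈ Ioo 0 L, 0 ≤ g x := by
  intro x hx
  have hG : ∀ y ∈ Ioo 0 L, HasDerivAt (fun y => (min (g y) 0) ^ 2) (2 * min (g y) 0 * g' y) y :=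
    fun y hy => (hasDerivAt_minsq (g y)).comp y (hg y hy)
  have hanti : AntitoneOn (fun y => (min (g y) 0) ^ 2) (Ioo 0 L) := by
    refine antitoneOn_of_deriv_nonpos (convex_Ioo 0 L)
      (fun y hy => (hG y hy).continuousAt.continuousWithinAt)
      (fun y hy => ?_) (fun y hy => ?_)
    · rw [interior_Ioo] at hy
      exact (hG y hy).differentiableAt.differentiableWithinAt
    · rw [interior_Ioo] at hy
      rw [(hG y hy).deriv]
      rcases lt_or_ge (g y) 0 with h1 | h1
      · rw [min_eq_left h1.le]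
        nlinarith [h y hy h1]
      · rw [min_eq_right h1]
        simp
  have hev : ∀ᶠ y in 𝓝[>] (0 : ℝ), (min (g x) 0) ^ 2 ≤ (min (g y) 0) ^ 2 := by
    filter_upwards [Ioo_mem_nhdsGT hx.1] with y hy
    exact hanti ⟨hy.1, hy.2.trans hx.2⟩ hx hy.2.le
  have hl : Tendsto (fun y => (min (g y) 0) ^ 2) (𝓝[>] 0) (𝓝 0) := by
    have h1 : Tendsto (fun u : ℝ => (min u 0) ^ 2) (𝓝 0) (𝓝 ((min (0 : ℝ) 0) ^ 2)) :=
      ((continuous_id.min continuous_const).pow 2).tendsto 0
    have h2 : ((min (0 : ℝ) 0) ^ 2) = 0 := by norm_num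
    rw [h2] at h1
    exact h1.comp hlim
  have h0 : (min (g x) 0) ^ 2 ≤ 0 := ge_of_tendsto hl hev
  have h1 : min (g x) 0 = 0 := by
    have := le_antisymm h0 (sq_nonneg _)
    exact pow_eq_zero_iff (two_ne_zero) |>.1 this
  exact min_eq_right_iff.1 h1

theorem hasDerivAt_sb (b x : ℝ) :
    HasDerivAt (fun x => Real.sinh (b * x)) (b * Real.cosh (b * x)) x := by
  have h1 : HasDerivAt (fun x : ℝ => b * x) b x := by
    simpa using (hasDerivAt_id x).const_mul b
  have := h1.sinh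
  rwa [mul_comm] at this

theorem hasDerivAt_cb (b x : ℝ) :
    HasDerivAt (fun x => Real.cosh (b * x)) (b * Real.sinh (b * x)) x := by
  have h1 : HasDerivAt (fun x : ℝ => b * x) b x := by
    simpa using (hasDerivAt_id x).const_mul b
  have := h1.cosh
  rwa [mul_comm] at this

/-- comparison of `tanh (b x)` with the quotient of two functions of `tanh x`, lower bound -/
theorem tanh_ge {b L : ℝ} (P Q P' Q' : ℝ → ℝ) (hP : ∀ x, HasDerivAt P (P' x) x)
    (hQ : ∀ x, HasDerivAt Q (Q' x) x) (hP0 : P 0 = 0)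
    (hQpos : ∀ x ∈ Ioo 0 L, 0 < Q x) (hbr : ∀ x ∈ Ioo 0 L, Q' x ≤ b * P x)
    (hdef : ∀ x ∈ Ioo 0 L, P' x * Q x - P x * Q' x ≤ b * (Q x ^ 2 - P x ^ 2)) :
    ∀ x ∈ Ioo 0 L, Real.cosh (b * x) * P x ≤ Real.sinh (b * x) * Q x := by
  have hs := hasDerivAt_sb b
  have hc := hasDerivAt_cb b
  have hH : ∀ x, HasDerivAt (fun x => Real.sinh (b * x) * Q x - Real.cosh (b * x) * P x)
      ((b * Real.cosh (b * x) * Q x + Real.sinh (b * x) * Q' x) -
        (b * Real.sinh (b * x) * P x + Real.cosh (b * x) * P' x)) x := fun x =>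
    ((hs x).mul (hQ x)).sub ((hc x).mul (hP x))
  intro x hx
  refine sub_nonneg.1 (max_pr (L := L) (fun y _ => hH y) (fun y hy hneg => ?_) ?_ x hx)
  · have hq := hQpos y hy
    have hb := hbr y hy
    have hd := hdef y hy
    have hcp := Real.cosh_pos (b * y)
    have h1 : 0 ≤ ((b * Real.cosh (b * y) * Q y + Real.sinh (b * y) * Q' y) -
        (b * Real.sinh (b * y) * P y + Real.cosh (b * y) * P' y)) * Q y := by
      have e : ((b * Real.cosh (b * y) * Q y + Real.sinh (b * y) * Q' y) -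
        (b * Real.sinh (b * y) * P y + Real.cosh (b * y) * P' y)) * Q y =
        Real.cosh (b * y) * (b * (Q y ^ 2 - P y ^ 2) - (P' y * Q y - P y * Q' y)) +
        (Real.sinh (b * y) * Q y - Real.cosh (b * y) * P y) * (Q' y - b * P y) := by ring
      rw [e]
      have h2 : 0 ≤ Real.cosh (b * y) * (b * (Q y ^ 2 - P y ^ 2) - (P' y * Q y - P y * Q' y)) :=
        mul_nonneg hcp.le (sub_nonneg.2 hd)
      have h3 : 0 ≤ (Real.sinh (b * y) * Q y - Real.cosh (b * y) * P y) * (Q' y - b * P y) :=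
        mul_nonneg_of_nonpos_of_nonpos hneg.le (sub_nonpos.2 hb)
      linarith
    exact nonneg_of_mul_nonneg_left h1 hq
  · have h1 := (hH 0).continuousAt.tendsto
    simp only [mul_zero, Real.sinh_zero, zero_mul, hP0, sub_zero] at h1
    exact h1.mono_left nhdsWithin_le_nhds

/-- comparison of `tanh (b x)` with the quotient of two functions of `tanh x`, upper bound -/
theorem tanh_le {b L : ℝ} (P Q P' Q' : ℝ → ℝ) (hP : ∀ x, HasDerivAt P (P' x) x)
    (hQ : ∀ x, HasDerivAt Q (Q' x) x) (hP0 : P 0 = 0)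
    (hQpos : ∀ x ∈ Ioo 0 L, 0 < Q x) (hbr : ∀ x ∈ Ioo 0 L, Q' x ≤ b * P x)
    (hdef : ∀ x ∈ Ioo 0 L, b * (Q x ^ 2 - P x ^ 2) ≤ P' x * Q x - P x * Q' x) :
    ∀ x ∈ Ioo 0 L, Real.sinh (b * x) * Q x ≤ Real.cosh (b * x) * P x := by
  have hs := hasDerivAt_sb b
  have hc := hasDerivAt_cb b
  have hH : ∀ x, HasDerivAt (fun x => Real.cosh (b * x) * P x - Real.sinh (b * x) * Q x)
      ((b * Real.sinh (b * x) * P x + Real.cosh (b * x) * P' x) -
        (b * Real.cosh (b * x) * Q x + Real.sinh (b * x) * Q' x)) x := fun x =>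
    ((hc x).mul (hP x)).sub ((hs x).mul (hQ x))
  intro x hx
  refine sub_nonneg.1 (max_pr (L := L) (fun y _ => hH y) (fun y hy hneg => ?_) ?_ x hx)
  · have hq := hQpos y hy
    have hb := hbr y hy
    have hd := hdef y hy
    have hcp := Real.cosh_pos (b * y)
    have h1 : 0 ≤ ((b * Real.sinh (b * y) * P y + Real.cosh (b * y) * P' y) -
        (b * Real.cosh (b * y) * Q y + Real.sinh (b * y) * Q' y)) * Q y := by
      have e : ((b * Real.sinh (b * y) * P y + Real.cosh (b * y) * P' y) -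
        (b * Real.cosh (b * y) * Q y + Real.sinh (b * y) * Q' y)) * Q y =
        Real.cosh (b * y) * ((P' y * Q y - P y * Q' y) - b * (Q y ^ 2 - P y ^ 2)) +
        (Real.cosh (b * y) * P y - Real.sinh (b * y) * Q y) * (Q' y - b * P y) := by ring
      rw [e]
      have h2 : 0 ≤ Real.cosh (b * y) * ((P' y * Q y - P y * Q' y) - b * (Q y ^ 2 - P y ^ 2)) :=
        mul_nonneg hcp.le (sub_nonneg.2 hd)
      have h3 : 0 ≤ (Real.cosh (b * y) * P y - Real.sinh (b * y) * Q y) * (Q' y - b * P y) :=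
        mul_nonneg_of_nonpos_of_nonpos hneg.le (sub_nonpos.2 hb)
      linarith
    exact nonneg_of_mul_nonneg_left h1 hq
  · have h1 := (hH 0).continuousAt.tendsto
    simp only [mul_zero, Real.sinh_zero, zero_mul, hP0, sub_zero] at h1
    exact h1.mono_left nhdsWithin_le_nhds

end SchK
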