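import Pool.Agent.LibSchK.K1

/-!
# The second convergent of `tanh (b x)` as a function of `tanh x`
-/

open Set Filter Topology

namespace SchK

theorem hasDerivAt_tanh (x : ℝ) : HasDerivAt Real.tanh (1 - Real.tanh x ^ 2) x := by
  have hc : Real.cosh x ≠ 0 := (Real.cosh_pos x).ne'
  have h := (Real.hasDerivAt_sinh x).div (Real.hasDerivAt_cosh x) hc
  have e : (fun y => Real.sinh y / Real.cosh y) = Real.tanh := by
    funext y
    rw [Real.tanh_eq_sinh_div_cosh]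
  have h' : HasDerivAt Real.tanh
      ((Real.cosh x * Real.cosh x - Real.sinh x * Real.sinh x) / Real.cosh x ^ 2) x := by
    rw [← e]
    exact h
  have e2 : (Real.cosh x * Real.cosh x - Real.sinh x * Real.sinh x) / Real.cosh x ^ 2 =
      1 - Real.tanh x ^ 2 := by
    rw [Real.tanh_eq_sinh_div_cosh]
    field_simp
  rw [← e2]
  exact h'

theorem tanh_pos {x : ℝ} (hx : 0 < x) : 0 < Real.tanh x := by
  rw [Real.tanh_eq_sinh_div_cosh]
  exact div_pos (Real.sinh_pos_iff.2 hx) (Real.cosh_pos x)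

theorem tanh_lt_one' (x : ℝ) : Real.tanh x < 1 := by
  rw [Real.tanh_eq_sinh_div_cosh, div_lt_one (Real.cosh_pos x)]
  exact Real.sinh_lt_cosh x

/-- the function `N = 1 - b tanh x / tanh (b x)` -/
noncomputable def Nf (b x : ℝ) : ℝ :=
  1 - b * Real.tanh x * (Real.cosh (b * x) / Real.sinh (b * x))

theorem hasDerivAt_poly (p : ℝ → ℝ) (p' : ℝ → ℝ) (hp : ∀ t, HasDerivAt p (p' t) t) (x : ℝ) :
    HasDerivAt (fun x => p (Real.tanh x)) (p' (Real.tanh x) * (1 - Real.tanh x ^ 2)) x :=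
  (hp _).comp x (hasDerivAt_tanh x)

theorem gamma_aux {b : ℝ} (hb0 : 0 < b) (hb1 : b < 1) {x : ℝ} (hx : 0 < x) :
    Real.cosh (b * x) * (b * Real.tanh x * (15 - (4 - b ^ 2) * Real.tanh x ^ 2)) ≤
      Real.sinh (b * x) * (15 - (9 - 6 * b ^ 2) * Real.tanh x ^ 2) := by
  have hb2 : b ^ 2 < 1 := by nlinarith
  refine tanh_ge (L := x + 1)
    (fun x => b * Real.tanh x * (15 - (4 - b ^ 2) * Real.tanh x ^ 2))
    (fun x => 15 - (9 - 6 * b ^ 2) * Real.tanh x ^ 2)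
    (fun x => (b * (15 - 3 * (4 - b ^ 2) * Real.tanh x ^ 2)) * (1 - Real.tanh x ^ 2))
    (fun x => (-2 * (9 - 6 * b ^ 2) * Real.tanh x) * (1 - Real.tanh x ^ 2))
    (fun y => hasDerivAt_poly (fun t => b * t * (15 - (4 - b ^ 2) * t ^ 2))
      (fun t => b * (15 - 3 * (4 - b ^ 2) * t ^ 2)) (fun t => ?_) y)
    (fun y => hasDerivAt_poly (fun t => 15 - (9 - 6 * b ^ 2) * t ^ 2)
      (fun t => -2 * (9 - 6 * b ^ 2) * t) (fun t => ?_) y)
    (by simp) (fun y hy => ?_) (fun y hy => ?_) (fun y hy => ?_) x ⟨hx, by linarith⟩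
  · have h1 := ((hasDerivAt_id t).const_mul b).mul
      (((hasDerivAt_pow 2 t).const_mul (4 - b ^ 2)).const_sub 15)
    refine (h1.congr_deriv ?_)
    simp
    ring
  · have h1 := ((hasDerivAt_pow 2 t).const_mul (9 - 6 * b ^ 2)).const_sub 15
    refine (h1.congr_deriv ?_)
    simp
    ring
  · have h1 := tanh_pos hy.1
    have h2 := tanh_lt_one' y
    have h3 : Real.tanh y ^ 2 < 1 := by nlinarith
    nlinarith [sq_nonneg (Real.tanh y), sq_nonneg b]
  · have h1 := tanh_pos hy.1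
    have h2 := tanh_lt_one' y
    have h3 : Real.tanh y ^ 2 < 1 := by nlinarith
    have h4 : 0 ≤ b * (b * Real.tanh y * (15 - (4 - b ^ 2) * Real.tanh y ^ 2)) := by
      have : 0 ≤ 15 - (4 - b ^ 2) * Real.tanh y ^ 2 := by
        nlinarith [sq_nonneg (Real.tanh y), sq_nonneg b]
      positivity
    have h5 : (-2 * (9 - 6 * b ^ 2) * Real.tanh y) * (1 - Real.tanh y ^ 2) ≤ 0 := by
      have h6 : 0 ≤ (9 - 6 * b ^ 2) * Real.tanh y := mul_nonneg (by nlinarith) h1.le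
      nlinarith [mul_nonneg h6 (sub_nonneg.2 h3.le)]
    linarith
  · have h1 := tanh_pos hy.1
    have e : b * ((15 - (9 - 6 * b ^ 2) * Real.tanh y ^ 2) ^ 2 -
        (b * Real.tanh y * (15 - (4 - b ^ 2) * Real.tanh y ^ 2)) ^ 2) -
        ((b * (15 - 3 * (4 - b ^ 2) * Real.tanh y ^ 2)) * (1 - Real.tanh y ^ 2) *
          (15 - (9 - 6 * b ^ 2) * Real.tanh y ^ 2) -
        b * Real.tanh y * (15 - (4 - b ^ 2) * Real.tanh y ^ 2) *
          ((-2 * (9 - 6 * b ^ 2) * Real.tanh y) * (1 - Real.tanh y ^ 2))) =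
        b * (1 - b ^ 2) * (4 - b ^ 2) * (9 - b ^ 2) * Real.tanh y ^ 6 := by ring
    have h2 : 0 ≤ b * (1 - b ^ 2) * (4 - b ^ 2) * (9 - b ^ 2) * Real.tanh y ^ 6 := by
      have h3 : 0 ≤ 1 - b ^ 2 := by linarith
      have h4 : 0 ≤ 4 - b ^ 2 := by linarith
      have h5 : 0 ≤ 9 - b ^ 2 := by linarith
      positivity
    linarith

theorem delta_aux {b : ℝ} (hb0 : 0 < b) (hb1 : b < 1) {x : ℝ} (hx : 0 < x)
    (hx2 : Real.tanh x ^ 2 < 1 / 2) :
    Real.sinh (b * x) * (15 - (15 - 6 * b ^ 2) * Real.tanh x ^ 2 +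
      2 * (1 - b ^ 2) * Real.tanh x ^ 4) ≤
    Real.cosh (b * x) * (b * Real.tanh x * (15 - (10 - b ^ 2) * Real.tanh x ^ 2)) := by
  have hb2 : b ^ 2 < 1 := by nlinarith
  obtain ⟨L, hxL, hL⟩ : ∃ L, x < L ∧ ∀ y ∈ Ioo 0 L, Real.tanh y ^ 2 < 1 / 2 := by
    have hcont : ContinuousAt (fun y => Real.tanh y ^ 2) x :=
      ((hasDerivAt_tanh x).continuousAt).pow 2
    have h1 : ∀ᶠ y in 𝓝 x, Real.tanh y ^ 2 < 1 / 2 := hcont.eventually_lt_const hx2
    obtain ⟨ε, hε, hball⟩ := Metric.eventually_nhds_iff.1 h1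
    refine ⟨x + ε, by linarith, fun y hy => ?_⟩
    rcases le_or_gt y x with h | h
    · have hmono : Real.tanh y ≤ Real.tanh x := by
        have hm : MonotoneOn Real.tanh univ := by
          refine monotoneOn_of_deriv_nonneg convex_univ
            (fun z _ => (hasDerivAt_tanh z).continuousAt.continuousWithinAt)
            (fun z _ => (hasDerivAt_tanh z).differentiableAt.differentiableWithinAt)
            (fun z _ => ?_)
          rw [(hasDerivAt_tanh z).deriv]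
          nlinarith [tanh_lt_one' z, tanh_lt_one' (-z), Real.tanh_neg z]
        exact hm trivial trivial h
      nlinarith [tanh_pos hy.1, tanh_pos hx]
    · refine hball ?_
      rw [Real.dist_eq, abs_of_pos (by linarith)]
      linarith [hy.2]
  refine tanh_le (L := L)
    (fun x => b * Real.tanh x * (15 - (10 - b ^ 2) * Real.tanh x ^ 2))
    (fun x => 15 - (15 - 6 * b ^ 2) * Real.tanh x ^ 2 + 2 * (1 - b ^ 2) * Real.tanh x ^ 4)
    (fun x => (b * (15 - 3 * (10 - b ^ 2) * Real.tanh x ^ 2)) * (1 - Real.tanh x ^ 2))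
    (fun x => (-2 * (15 - 6 * b ^ 2) * Real.tanh x + 8 * (1 - b ^ 2) * Real.tanh x ^ 3) *
      (1 - Real.tanh x ^ 2))
    (fun y => hasDerivAt_poly (fun t => b * t * (15 - (10 - b ^ 2) * t ^ 2))
      (fun t => b * (15 - 3 * (10 - b ^ 2) * t ^ 2)) (fun t => ?_) y)
    (fun y => hasDerivAt_poly (fun t => 15 - (15 - 6 * b ^ 2) * t ^ 2 + 2 * (1 - b ^ 2) * t ^ 4)
      (fun t => -2 * (15 - 6 * b ^ 2) * t + 8 * (1 - b ^ 2) * t ^ 3) (fun t => ?_) y)
    (by simp) (fun y hy => ?_) (fun y hy => ?_) (fun y hy => ?_) x ⟨hx, hxL⟩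
  · have h1 := ((hasDerivAt_id t).const_mul b).mul
      (((hasDerivAt_pow 2 t).const_mul (10 - b ^ 2)).const_sub 15)
    refine (h1.congr_deriv ?_)
    simp
    ring
  · have h1 := (((hasDerivAt_pow 2 t).const_mul (15 - 6 * b ^ 2)).const_sub 15).add
      ((hasDerivAt_pow 4 t).const_mul (2 * (1 - b ^ 2)))
    refine (h1.congr_deriv ?_)
    simp
    ring
  · have h1 := tanh_pos hy.1
    have h3 := hL y hy
    nlinarith [sq_nonneg (Real.tanh y), sq_nonneg b, mul_nonneg (sub_nonneg.2 hb2.le)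
      (pow_nonneg h1.le 4)]
  · have h1 := tanh_pos hy.1
    have h3 := hL y hy
    have h4 : 0 ≤ b * (b * Real.tanh y * (15 - (10 - b ^ 2) * Real.tanh y ^ 2)) := by
      have : 0 ≤ 15 - (10 - b ^ 2) * Real.tanh y ^ 2 := by
        nlinarith [sq_nonneg (Real.tanh y), sq_nonneg b]
      positivity
    have h5 : (-2 * (15 - 6 * b ^ 2) * Real.tanh y + 8 * (1 - b ^ 2) * Real.tanh y ^ 3) *
        (1 - Real.tanh y ^ 2) ≤ 0 := by
      have h6 : -2 * (15 - 6 * b ^ 2) * Real.tanh y + 8 * (1 - b ^ 2) * Real.tanh y ^ 3 =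
        Real.tanh y * (-2 * (15 - 6 * b ^ 2) + 8 * (1 - b ^ 2) * Real.tanh y ^ 2) := by ring
      rw [h6]
      have h7 : -2 * (15 - 6 * b ^ 2) + 8 * (1 - b ^ 2) * Real.tanh y ^ 2 ≤ 0 := by
        nlinarith [sq_nonneg (Real.tanh y), sq_nonneg b]
      exact mul_nonpos_of_nonpos_of_nonneg (mul_nonpos_of_nonneg_of_nonpos h1.le h7) (by linarith)
    linarith
  · have h1 := tanh_pos hy.1
    have h3 := hL y hy
    have e : ((b * (15 - 3 * (10 - b ^ 2) * Real.tanh y ^ 2)) * (1 - Real.tanh y ^ 2) *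
          (15 - (15 - 6 * b ^ 2) * Real.tanh y ^ 2 + 2 * (1 - b ^ 2) * Real.tanh y ^ 4) -
        b * Real.tanh y * (15 - (10 - b ^ 2) * Real.tanh y ^ 2) *
          ((-2 * (15 - 6 * b ^ 2) * Real.tanh y + 8 * (1 - b ^ 2) * Real.tanh y ^ 3) *
            (1 - Real.tanh y ^ 2))) -
        b * ((15 - (15 - 6 * b ^ 2) * Real.tanh y ^ 2 + 2 * (1 - b ^ 2) * Real.tanh y ^ 4) ^ 2 -
        (b * Real.tanh y * (15 - (10 - b ^ 2) * Real.tanh y ^ 2)) ^ 2) =
        b * (1 - b ^ 2) * (4 - b ^ 2) * Real.tanh y ^ 6 * (5 + b ^ 2 - 6 * Real.tanh y ^ 2) := by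
      ring
    have h2 : 0 ≤ b * (1 - b ^ 2) * (4 - b ^ 2) * Real.tanh y ^ 6 *
        (5 + b ^ 2 - 6 * Real.tanh y ^ 2) := by
      have h3' : 0 ≤ 1 - b ^ 2 := by linarith
      have h4 : 0 ≤ 4 - b ^ 2 := by linarith
      have h5 : 0 ≤ 5 + b ^ 2 - 6 * Real.tanh y ^ 2 := by nlinarith [sq_nonneg b]
      positivity
    linarith

end SchK
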