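import Pool.Agent.LibSchK.K2

/-!
# The function `Y`: the Riccati equation, bounds, concavity
-/

open Set Filter Topology

namespace SchK

/-- the second remainder of the continued fraction of `tanh (b x)`, as a function of `tanh x` -/
noncomputable def Yf (b x : ℝ) : ℝ :=
  (4 - b ^ 2) * Real.tanh x ^ 2 * Nf b x / (3 * Nf b x - (1 - b ^ 2) * Real.tanh x ^ 2)

section

variable {b : ℝ} (hb0 : 0 < b) (hb1 : b < 1)

include hb0 in
theorem sinh_pos' {x : ℝ} (hx : 0 < x) : 0 < Real.sinh (b * x) :=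
  Real.sinh_pos_iff.2 (mul_pos hb0 hx)

include hb0 hb1 in
/-- lower bound for `N` -/
theorem N_ge {x : ℝ} (hx : 0 < x) :
    5 * (1 - b ^ 2) * Real.tanh x ^ 2 / (15 - (4 - b ^ 2) * Real.tanh x ^ 2) ≤ Nf b x := by
  have ht := tanh_pos hx
  have ht1 := tanh_lt_one' x
  have hq : Real.tanh x ^ 2 < 1 := by nlinarith
  have hb2 : b ^ 2 < 1 := by nlinarith
  have hs := sinh_pos' hb0 hx
  have hden : 0 < 15 - (4 - b ^ 2) * Real.tanh x ^ 2 := by
    nlinarith [sq_nonneg (Real.tanh x), sq_nonneg b]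
  have h := gamma_aux hb0 hb1 hx
  rw [Nf, div_le_iff₀ hden]
  have h1 : b * Real.tanh x * (Real.cosh (b * x) / Real.sinh (b * x)) *
      (15 - (4 - b ^ 2) * Real.tanh x ^ 2) ≤ 15 - (9 - 6 * b ^ 2) * Real.tanh x ^ 2 := by
    have e : b * Real.tanh x * (Real.cosh (b * x) / Real.sinh (b * x)) *
        (15 - (4 - b ^ 2) * Real.tanh x ^ 2) =
        Real.cosh (b * x) * (b * Real.tanh x * (15 - (4 - b ^ 2) * Real.tanh x ^ 2)) /
          Real.sinh (b * x) := by ring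
    rw [e, div_le_iff₀ hs]
    linarith
  nlinarith

include hb0 hb1 in
theorem N_pos {x : ℝ} (hx : 0 < x) : 0 < Nf b x := by
  have ht := tanh_pos hx
  have ht1 := tanh_lt_one' x
  have hq : Real.tanh x ^ 2 < 1 := by nlinarith
  have hb2 : b ^ 2 < 1 := by nlinarith
  have hden : 0 < 15 - (4 - b ^ 2) * Real.tanh x ^ 2 := by
    nlinarith [sq_nonneg (Real.tanh x), sq_nonneg b]
  refine lt_of_lt_of_le ?_ (N_ge hb0 hb1 hx)
  have : 0 < 1 - b ^ 2 := by linarith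
  positivity

include hb0 hb1 in
theorem den_pos {x : ℝ} (hx : 0 < x) : 0 < 3 * Nf b x - (1 - b ^ 2) * Real.tanh x ^ 2 := by
  have ht := tanh_pos hx
  have ht1 := tanh_lt_one' x
  have hq : Real.tanh x ^ 2 < 1 := by nlinarith
  have hb2 : b ^ 2 < 1 := by nlinarith
  have hden : 0 < 15 - (4 - b ^ 2) * Real.tanh x ^ 2 := by
    nlinarith [sq_nonneg (Real.tanh x), sq_nonneg b]
  have h1 := N_ge hb0 hb1 hx
  have h2 : 0 < 3 * (5 * (1 - b ^ 2) * Real.tanh x ^ 2 / (15 - (4 - b ^ 2) * Real.tanh x ^ 2)) -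
      (1 - b ^ 2) * Real.tanh x ^ 2 := by
    have e : 3 * (5 * (1 - b ^ 2) * Real.tanh x ^ 2 / (15 - (4 - b ^ 2) * Real.tanh x ^ 2)) -
      (1 - b ^ 2) * Real.tanh x ^ 2 = (1 - b ^ 2) * Real.tanh x ^ 2 *
        ((4 - b ^ 2) * Real.tanh x ^ 2) / (15 - (4 - b ^ 2) * Real.tanh x ^ 2) := by
      have hne := hden.ne'
      rw [eq_div_iff hne, sub_mul, mul_assoc 3, div_mul_cancel₀ _ hne]
      ring
    rw [e]
    have h3 : 0 < 1 - b ^ 2 := by linarith
    have h4 : 0 < 4 - b ^ 2 := by linarith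
    positivity
  linarith

include hb0 hb1 in
theorem Y_pos {x : ℝ} (hx : 0 < x) : 0 < Yf b x := by
  have ht := tanh_pos hx
  have hb2 : b ^ 2 < 1 := by nlinarith
  have h1 := N_pos hb0 hb1 hx
  have h2 := den_pos hb0 hb1 hx
  have h4 : 0 < 4 - b ^ 2 := by linarith
  rw [Yf]
  positivity

include hb0 hb1 in
theorem Y_le {x : ℝ} (hx : 0 < x) : Yf b x ≤ 5 := by
  have ht := tanh_pos hx
  have ht1 := tanh_lt_one' x
  have hq : Real.tanh x ^ 2 < 1 := by nlinarith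
  have hb2 : b ^ 2 < 1 := by nlinarith
  have hden : 0 < 15 - (4 - b ^ 2) * Real.tanh x ^ 2 := by
    nlinarith [sq_nonneg (Real.tanh x), sq_nonneg b]
  have h1 := N_ge hb0 hb1 hx
  rw [div_le_iff₀ hden] at h1
  rw [Yf, div_le_iff₀ (den_pos hb0 hb1 hx)]
  nlinarith

include hb0 hb1 in
theorem Y_ge {x : ℝ} (hx : 0 < x) (hx2 : Real.tanh x ^ 2 < 1 / 2) :
    5 - 2 * Real.tanh x ^ 2 ≤ Yf b x := by
  have ht := tanh_pos hx
  have hb2 : b ^ 2 < 1 := by nlinarith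
  have hs := sinh_pos' hb0 hx
  have hden : 0 < 15 - (10 - b ^ 2) * Real.tanh x ^ 2 := by
    nlinarith [sq_nonneg (Real.tanh x), sq_nonneg b]
  have h := delta_aux hb0 hb1 hx hx2
  have h1 : 15 - (15 - 6 * b ^ 2) * Real.tanh x ^ 2 + 2 * (1 - b ^ 2) * Real.tanh x ^ 4 ≤
      b * Real.tanh x * (Real.cosh (b * x) / Real.sinh (b * x)) *
      (15 - (10 - b ^ 2) * Real.tanh x ^ 2) := by
    have e : b * Real.tanh x * (Real.cosh (b * x) / Real.sinh (b * x)) *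
        (15 - (10 - b ^ 2) * Real.tanh x ^ 2) =
        Real.cosh (b * x) * (b * Real.tanh x * (15 - (10 - b ^ 2) * Real.tanh x ^ 2)) /
          Real.sinh (b * x) := by ring
    rw [e, le_div_iff₀ hs]
    linarith
  have h2 : Nf b x * (15 - (10 - b ^ 2) * Real.tanh x ^ 2) ≤
      (1 - b ^ 2) * Real.tanh x ^ 2 * (5 - 2 * Real.tanh x ^ 2) := by
    rw [Nf]
    nlinarith
  rw [Yf, le_div_iff₀ (den_pos hb0 hb1 hx)]
  have h3 : 0 ≤ Real.tanh x ^ 2 := sq_nonneg _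
  nlinarith

include hb0 in
theorem hasDerivAt_N {x : ℝ} (hx : 0 < x) : HasDerivAt (Nf b)
    ((-Nf b x + (1 - b ^ 2) * Real.tanh x ^ 2 + Nf b x ^ 2 - Real.tanh x ^ 2 * Nf b x) /
      Real.tanh x) x := by
  have hs := sinh_pos' hb0 hx
  have ht := tanh_pos hx
  have h1 := (((hasDerivAt_tanh x).const_mul b).mul
    ((hasDerivAt_cb b x).div (hasDerivAt_sb b x) hs.ne')).const_sub 1
  refine h1.congr_deriv ?_
  rw [Nf]
  simp only [Pi.div_apply]
  field_simp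
  ring
end

end SchK
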