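import Pool.Agent.LibSchK.K3

/-!
# Concavity of `Y` as a function of `tanh x ^ 2`
-/

open Set Filter Topology

namespace SchK

/-- `D = 5 - Y` -/
noncomputable def Df (b x : ℝ) : ℝ := 5 - Yf b x

/-- the derivative of `D` with respect to `q = tanh x ^ 2` -/
noncomputable def D1 (b x : ℝ) : ℝ :=
  ((9 - b ^ 2) * Real.tanh x ^ 2 + Df b x ^ 2 - Real.tanh x ^ 2 * Df b x - 5 * Df b x) /
    (2 * Real.tanh x ^ 2 * (1 - Real.tanh x ^ 2))

/-- the second derivative of `D` with respect to `q = tanh x ^ 2` -/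
noncomputable def D2 (b x : ℝ) : ℝ :=
  ((9 - b ^ 2) - Df b x + (2 * Df b x + 3 * Real.tanh x ^ 2 - 7) * D1 b x) /
    (2 * Real.tanh x ^ 2 * (1 - Real.tanh x ^ 2))

theorem one_sub_sq_pos (x : ℝ) : 0 < 1 - Real.tanh x ^ 2 := by
  have h1 := tanh_lt_one' x
  have h2 := tanh_lt_one' (-x)
  rw [Real.tanh_neg] at h2
  nlinarith

section

variable {b : ℝ} (hb0 : 0 < b) (hb1 : b < 1)

include hb0 hb1 in
theorem hasDerivAt_Y {x : ℝ} (hx : 0 < x) : HasDerivAt (Yf b)
    ((-Yf b x ^ 2 + (5 - Real.tanh x ^ 2) * Yf b x - (4 - b ^ 2) * Real.tanh x ^ 2) /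
      Real.tanh x) x := by
  have ht := tanh_pos hx
  have hd := den_pos hb0 hb1 hx
  have hN := hasDerivAt_N hb0 hx
  have hq := hasDerivAt_poly (fun t => t ^ 2) (fun t => 2 * t)
    (fun t => by simpa using hasDerivAt_pow 2 t) x
  have h1 := ((hq.const_mul (4 - b ^ 2)).mul hN).div
    ((hN.const_mul 3).sub (hq.const_mul (1 - b ^ 2))) hd.ne'
  refine h1.congr_deriv ?_
  rw [Yf]
  simp only [Pi.sub_apply, Pi.mul_apply]
  have hne : 3 * Nf b x - (1 - b ^ 2) * Real.tanh x ^ 2 ≠ 0 := hd.ne'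
  have ht' := ht.ne'
  generalize Nf b x = N at *
  generalize Real.tanh x = t at *
  generalize hM : 3 * N - (1 - b ^ 2) * t ^ 2 = M at *
  field_simp
  rw [← hM]
  ring

include hb0 hb1 in
theorem hasDerivAt_D {x : ℝ} (hx : 0 < x) : HasDerivAt (Df b)
    (2 * Real.tanh x * (1 - Real.tanh x ^ 2) * D1 b x) x := by
  have ht := (tanh_pos hx).ne'
  have h1 := (one_sub_sq_pos x).ne'
  have h := (hasDerivAt_Y hb0 hb1 hx).const_sub 5
  refine h.congr_deriv ?_
  rw [D1, Df]
  generalize Yf b x = Y at *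
  generalize Real.tanh x = t at *
  field_simp
  ring

include hb0 hb1 in
theorem hasDerivAt_D1 {x : ℝ} (hx : 0 < x) : HasDerivAt (D1 b)
    (2 * Real.tanh x * (1 - Real.tanh x ^ 2) * D2 b x) x := by
  have ht := (tanh_pos hx).ne'
  have h1 := (one_sub_sq_pos x).ne'
  have hD := hasDerivAt_D hb0 hb1 hx
  have hq := hasDerivAt_poly (fun t => t ^ 2) (fun t => 2 * t)
    (fun t => by simpa using hasDerivAt_pow 2 t) x
  have hden : 2 * Real.tanh x ^ 2 * (1 - Real.tanh x ^ 2) ≠ 0 := by positivity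
  have h := ((((hq.const_mul (9 - b ^ 2)).add (hD.pow 2)).sub (hq.mul hD)).sub
    (hD.const_mul 5)).div ((hq.const_mul 2).mul (hq.const_sub 1)) hden
  refine h.congr_deriv ?_
  simp only [Pi.sub_apply, Pi.mul_apply, Pi.add_apply, Pi.pow_apply]
  have e1 : D1 b x * (2 * Real.tanh x ^ 2 * (1 - Real.tanh x ^ 2)) =
      (9 - b ^ 2) * Real.tanh x ^ 2 + Df b x ^ 2 - Real.tanh x ^ 2 * Df b x - 5 * Df b x := by
    rw [D1, div_mul_cancel₀ _ hden]
  rw [D2]
  generalize D1 b x = F at *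
  generalize Df b x = D at *
  generalize Real.tanh x = t at *
  rw [← e1]
  have h1' : 1 - t ^ 2 ≠ 0 := h1
  field_simp
  ring

include hb0 hb1 in
theorem hasDerivAt_D2 {x : ℝ} (hx : 0 < x) : HasDerivAt (D2 b)
    ((2 * D1 b x ^ 2 + 2 * D1 b x + (2 * Df b x + 7 * Real.tanh x ^ 2 - 9) * D2 b x) /
      Real.tanh x) x := by
  have ht := (tanh_pos hx).ne'
  have h1 := (one_sub_sq_pos x).ne'
  have hD := hasDerivAt_D hb0 hb1 hx
  have hD1 := hasDerivAt_D1 hb0 hb1 hx
  have hq := hasDerivAt_poly (fun t => t ^ 2) (fun t => 2 * t)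
    (fun t => by simpa using hasDerivAt_pow 2 t) x
  have hden : 2 * Real.tanh x ^ 2 * (1 - Real.tanh x ^ 2) ≠ 0 := by positivity
  have h := (((hD.const_sub (9 - b ^ 2)).add
    ((((hD.const_mul 2).add (hq.const_mul 3)).sub_const 7).mul hD1))).div
    ((hq.const_mul 2).mul (hq.const_sub 1)) hden
  refine h.congr_deriv ?_
  simp only [Pi.mul_apply, Pi.add_apply]
  have e1 : D2 b x * (2 * Real.tanh x ^ 2 * (1 - Real.tanh x ^ 2)) =
      (9 - b ^ 2) - Df b x + (2 * Df b x + 3 * Real.tanh x ^ 2 - 7) * D1 b x := by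
    rw [D2, div_mul_cancel₀ _ hden]
  generalize D2 b x = G at *
  generalize D1 b x = F at *
  generalize Df b x = D at *
  generalize Real.tanh x = t at *
  rw [← e1]
  have h1' : 1 - t ^ 2 ≠ 0 := h1
  field_simp
  ring

end

/-- the weight -/
noncomputable def wt (x : ℝ) : ℝ := Real.tanh x ^ 4 * (1 - Real.tanh x ^ 2) ^ 12

theorem hasDerivAt_wt {x : ℝ} (hx : 0 < x) : HasDerivAt wt
    (wt x * (4 - 28 * Real.tanh x ^ 2) / Real.tanh x) x := by
  have ht := (tanh_pos hx).ne'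
  have h := hasDerivAt_poly (fun t => t ^ 4 * (1 - t ^ 2) ^ 12)
    (fun t => 4 * t ^ 3 * (1 - t ^ 2) ^ 12 + t ^ 4 * (12 * (1 - t ^ 2) ^ 11 * (-(2 * t))))
    (fun t => ?_) x
  · refine h.congr_deriv ?_
    rw [wt]
    field_simp
    ring
  · have h1 := (hasDerivAt_pow 4 t).mul (((hasDerivAt_pow 2 t).const_sub 1).pow 12)
    refine h1.congr_deriv ?_
    simp

theorem wt_pos {x : ℝ} (hx : 0 < x) : 0 < wt x := by
  have h1 := tanh_pos hx
  have h2 := one_sub_sq_pos x
  rw [wt]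
  positivity

theorem wt_le {x : ℝ} (hx : 0 < x) : wt x ≤ Real.tanh x ^ 4 := by
  have h1 := tanh_pos hx
  have h2 := one_sub_sq_pos x
  rw [wt]
  have h3 : (1 - Real.tanh x ^ 2) ^ 12 ≤ 1 := pow_le_one₀ h2.le (by nlinarith)
  nlinarith [pow_pos h1 4]

theorem tanh_tendsto : Tendsto Real.tanh (𝓝[>] 0) (𝓝 0) := by
  have h := (hasDerivAt_tanh 0).continuousAt.tendsto
  rw [Real.tanh_zero] at h
  exact h.mono_left nhdsWithin_le_nhds

theorem eventually_half : ∀ᶠ x in 𝓝[>] (0 : ℝ), 0 < x ∧ Real.tanh x ^ 2 < 1 / 2 := by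
  have h1 : Tendsto (fun x => Real.tanh x ^ 2) (𝓝[>] 0) (𝓝 0) := by
    have := tanh_tendsto.pow 2
    simpa using this
  filter_upwards [h1.eventually_lt_const (show (0 : ℝ) < 1 / 2 by norm_num),
    self_mem_nhdsWithin] with x hx hx'
  exact ⟨hx', hx⟩

section

variable {b : ℝ} (hb0 : 0 < b) (hb1 : b < 1)

include hb0 hb1 in
theorem D_nonneg {x : ℝ} (hx : 0 < x) : 0 ≤ Df b x := by
  rw [Df]; linarith [Y_le hb0 hb1 hx]

include hb0 hb1 in
theorem D_lt {x : ℝ} (hx : 0 < x) : Df b x < 5 := by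
  rw [Df]; linarith [Y_pos hb0 hb1 hx]

include hb0 hb1 in
theorem D_le {x : ℝ} (hx : 0 < x) (h : Real.tanh x ^ 2 < 1 / 2) : Df b x ≤ 2 * Real.tanh x ^ 2 := by
  rw [Df]; linarith [Y_ge hb0 hb1 hx h]

include hb0 hb1 in
theorem D_le' {x : ℝ} (hx : 0 < x) : Df b x ≤ 10 * Real.tanh x ^ 2 := by
  rcases lt_or_ge (Real.tanh x ^ 2) (1 / 2) with h | h
  · have := D_le hb0 hb1 hx h
    nlinarith [sq_nonneg (Real.tanh x)]
  · linarith [D_lt hb0 hb1 hx]

include hb0 hb1 in
theorem D1_bound {x : ℝ} (hx : 0 < x) (h : Real.tanh x ^ 2 < 1 / 2) : |D1 b x| ≤ 25 := by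
  have h1 := tanh_pos hx
  have hq : 0 < Real.tanh x ^ 2 := by positivity
  have h2 := D_nonneg hb0 hb1 hx
  have h3 := D_le hb0 hb1 hx h
  have hb2 : b ^ 2 < 1 := by nlinarith
  have hden : 0 < 2 * Real.tanh x ^ 2 * (1 - Real.tanh x ^ 2) := by
    have := one_sub_sq_pos x
    positivity
  rw [D1, abs_div, abs_of_pos hden, div_le_iff₀ hden, abs_le]
  generalize Real.tanh x ^ 2 = q at *
  generalize Df b x = D at *
  constructor
  · nlinarith [mul_nonneg h2 hq.le, sq_nonneg b, mul_nonneg hq.le (sub_nonneg.2 h3),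
      mul_nonneg h2 h2]
  · nlinarith [mul_nonneg h2 hq.le, sq_nonneg b, mul_nonneg hq.le (sub_nonneg.2 h3),
      mul_nonneg h2 (sub_nonneg.2 h3)]

include hb0 hb1 in
theorem D2_bound {x : ℝ} (hx : 0 < x) (h : Real.tanh x ^ 2 < 1 / 2) :
    |D2 b x| * Real.tanh x ^ 2 ≤ 300 := by
  have h1 := tanh_pos hx
  have hq : 0 < Real.tanh x ^ 2 := by positivity
  have h2 := D_nonneg hb0 hb1 hx
  have h3 := D_le hb0 hb1 hx h
  have hb2 : b ^ 2 < 1 := by nlinarith
  have h4 := D1_bound hb0 hb1 hx h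
  have hden : 0 < 2 * Real.tanh x ^ 2 * (1 - Real.tanh x ^ 2) := by
    have := one_sub_sq_pos x
    positivity
  rw [D2, abs_div, abs_of_pos hden, div_mul_eq_mul_div, div_le_iff₀ hden]
  have h5 : |(9 - b ^ 2) - Df b x + (2 * Df b x + 3 * Real.tanh x ^ 2 - 7) * D1 b x| ≤ 300 := by
    rw [abs_le] at h4 ⊢
    generalize Real.tanh x ^ 2 = q at *
    generalize Df b x = D at *
    generalize D1 b x = F at *
    have h6 : |2 * D + 3 * q - 7| ≤ 7 := by rw [abs_le]; constructor <;> linarith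
    have h7 : |(2 * D + 3 * q - 7) * F| ≤ 7 * 25 := by
      rw [abs_mul]
      exact mul_le_mul h6 (abs_le.2 h4) (abs_nonneg _) (by norm_num)
    rw [abs_le] at h7
    constructor <;> nlinarith [sq_nonneg b]
  nlinarith

include hb0 hb1 in
theorem D1_nonneg {x : ℝ} (hx : 0 < x) : 0 ≤ D1 b x := by
  have key := max_pr (L := x + 1) (g := fun x => D1 b x * wt x)
    (g' := fun x => 2 * Real.tanh x * (1 - Real.tanh x ^ 2) * D2 b x * wt x +
      D1 b x * (wt x * (4 - 28 * Real.tanh x ^ 2) / Real.tanh x))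
    (fun y hy => (hasDerivAt_D1 hb0 hb1 hy.1).mul (hasDerivAt_wt hy.1))
    (fun y hy hneg => ?_) ?_ x ⟨hx, by linarith⟩
  · exact nonneg_of_mul_nonneg_left key (wt_pos hx)
  · have hw := wt_pos hy.1
    have ht := tanh_pos hy.1
    have hF : D1 b y < 0 := by
      by_contra h
      push Not at h
      exact absurd hneg (not_lt.2 (mul_nonneg h hw.le))
    have h2 := D_lt hb0 hb1 hy.1
    have h3 := D_le' hb0 hb1 hy.1
    have hden : 2 * Real.tanh y ^ 2 * (1 - Real.tanh y ^ 2) ≠ 0 := by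
      have := one_sub_sq_pos y
      positivity
    have e1 : D2 b y * (2 * Real.tanh y ^ 2 * (1 - Real.tanh y ^ 2)) =
        (9 - b ^ 2) - Df b y + (2 * Df b y + 3 * Real.tanh y ^ 2 - 7) * D1 b y := by
      rw [D2, div_mul_cancel₀ _ hden]
    have e : 2 * Real.tanh y * (1 - Real.tanh y ^ 2) * D2 b y * wt y +
        D1 b y * (wt y * (4 - 28 * Real.tanh y ^ 2) / Real.tanh y) =
        wt y / Real.tanh y * (((9 - b ^ 2) - Df b y) +
          (2 * Df b y - 25 * Real.tanh y ^ 2 - 3) * D1 b y) := by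
      have e2 : ((9 - b ^ 2) - Df b y) + (2 * Df b y - 25 * Real.tanh y ^ 2 - 3) * D1 b y =
        D2 b y * (2 * Real.tanh y ^ 2 * (1 - Real.tanh y ^ 2)) +
          (4 - 28 * Real.tanh y ^ 2) * D1 b y := by
        rw [e1]; ring
      rw [e2]
      have ht' := ht.ne'
      field_simp
    rw [e]
    have hb2 : b ^ 2 < 1 := by nlinarith
    have h4 : 0 ≤ (2 * Df b y - 25 * Real.tanh y ^ 2 - 3) * D1 b y :=
      mul_nonneg_of_nonpos_of_nonpos (by nlinarith [sq_nonneg (Real.tanh y)]) hF.le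
    have h5 : 0 ≤ wt y / Real.tanh y := by positivity
    exact mul_nonneg h5 (by linarith)
  · have h0 : Tendsto (fun x => 25 * Real.tanh x ^ 4) (𝓝[>] 0) (𝓝 0) := by
      have := (tanh_tendsto.pow 4).const_mul 25
      simpa using this
    refine squeeze_zero_norm' ?_ h0
    filter_upwards [eventually_half] with y hy
    rw [norm_mul, Real.norm_eq_abs, Real.norm_eq_abs, abs_of_pos (wt_pos hy.1)]
    exact mul_le_mul (D1_bound hb0 hb1 hy.1 hy.2) (wt_le hy.1) (wt_pos hy.1).le (by norm_num)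

include hb0 hb1 in
theorem D2_nonneg {x : ℝ} (hx : 0 < x) : 0 ≤ D2 b x := by
  have key := max_pr (L := x + 1) (g := fun x => D2 b x * wt x)
    (g' := fun x => (2 * D1 b x ^ 2 + 2 * D1 b x +
      (2 * Df b x + 7 * Real.tanh x ^ 2 - 9) * D2 b x) / Real.tanh x * wt x +
      D2 b x * (wt x * (4 - 28 * Real.tanh x ^ 2) / Real.tanh x))
    (fun y hy => (hasDerivAt_D2 hb0 hb1 hy.1).mul (hasDerivAt_wt hy.1))
    (fun y hy hneg => ?_) ?_ x ⟨hx, by linarith⟩
  · exact nonneg_of_mul_nonneg_left key (wt_pos hx)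
  · have hw := wt_pos hy.1
    have ht := tanh_pos hy.1
    have hF : D2 b y < 0 := by
      by_contra h
      push Not at h
      exact absurd hneg (not_lt.2 (mul_nonneg h hw.le))
    have h3 := D_le' hb0 hb1 hy.1
    have h1 := D1_nonneg hb0 hb1 hy.1
    have e : (2 * D1 b y ^ 2 + 2 * D1 b y +
        (2 * Df b y + 7 * Real.tanh y ^ 2 - 9) * D2 b y) / Real.tanh y * wt y +
        D2 b y * (wt y * (4 - 28 * Real.tanh y ^ 2) / Real.tanh y) =
        wt y / Real.tanh y * ((2 * D1 b y ^ 2 + 2 * D1 b y) +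
          (2 * Df b y - 21 * Real.tanh y ^ 2 - 5) * D2 b y) := by
      ring
    rw [e]
    have h4 : 0 ≤ (2 * Df b y - 21 * Real.tanh y ^ 2 - 5) * D2 b y :=
      mul_nonneg_of_nonpos_of_nonpos (by nlinarith [sq_nonneg (Real.tanh y)]) hF.le
    have h5 : 0 ≤ wt y / Real.tanh y := by positivity
    exact mul_nonneg h5 (by positivity)
  · have h0 : Tendsto (fun x => 300 * Real.tanh x ^ 2) (𝓝[>] 0) (𝓝 0) := by
      have := (tanh_tendsto.pow 2).const_mul 300
      simpa using this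
    refine squeeze_zero_norm' ?_ h0
    filter_upwards [eventually_half] with y hy
    rw [norm_mul, Real.norm_eq_abs, Real.norm_eq_abs, abs_of_pos (wt_pos hy.1)]
    have h1 := D2_bound hb0 hb1 hy.1 hy.2
    have h2 := wt_le hy.1
    have h3 : |D2 b y| * wt y ≤ |D2 b y| * Real.tanh y ^ 4 :=
      mul_le_mul_of_nonneg_left h2 (abs_nonneg _)
    have h4 : |D2 b y| * Real.tanh y ^ 4 = (|D2 b y| * Real.tanh y ^ 2) * Real.tanh y ^ 2 := by ring
    rw [h4] at h3
    exact h3.trans (mul_le_mul_of_nonneg_right h1 (sq_nonneg _))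

include hb0 hb1 in
/-- **`D` is convex as a function of `tanh x ^ 2`** -/
theorem D_tangent {x y : ℝ} (hx : 0 < x) (hy : 0 < y) :
    Df b y + D1 b y * (Real.tanh x ^ 2 - Real.tanh y ^ 2) ≤ Df b x := by
  have hmono : MonotoneOn (D1 b) (Ioi 0) := by
    refine monotoneOn_of_deriv_nonneg (convex_Ioi 0)
      (fun z hz => (hasDerivAt_D1 hb0 hb1 hz).continuousAt.continuousWithinAt)
      (fun z hz => ?_) (fun z hz => ?_)
    · rw [interior_Ioi] at hz
      exact (hasDerivAt_D1 hb0 hb1 hz).differentiableAt.differentiableWithinAt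
    · rw [interior_Ioi] at hz
      rw [(hasDerivAt_D1 hb0 hb1 hz).deriv]
      have h1 := tanh_pos hz
      have h2 := one_sub_sq_pos z
      have h3 := D2_nonneg hb0 hb1 hz
      positivity
  have hq : ∀ z, HasDerivAt (fun x => Real.tanh x ^ 2)
      (2 * Real.tanh z * (1 - Real.tanh z ^ 2)) z := fun z =>
    hasDerivAt_poly (fun t => t ^ 2) (fun t => 2 * t) (fun t => by simpa using hasDerivAt_pow 2 t) z
  have hZ : ∀ z, 0 < z → HasDerivAt
      (fun z => Df b z - Df b y - D1 b y * (Real.tanh z ^ 2 - Real.tanh y ^ 2))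
      (2 * Real.tanh z * (1 - Real.tanh z ^ 2) * (D1 b z - D1 b y)) z := fun z hz => by
    have h := ((hasDerivAt_D hb0 hb1 hz).sub_const (Df b y)).sub
      (((hq z).sub_const (Real.tanh y ^ 2)).const_mul (D1 b y))
    refine h.congr_deriv ?_
    ring
  have h0 : (fun z => Df b z - Df b y - D1 b y * (Real.tanh z ^ 2 - Real.tanh y ^ 2)) y = 0 := by
    simp
  have key : 0 ≤ (fun z => Df b z - Df b y - D1 b y * (Real.tanh z ^ 2 - Real.tanh y ^ 2)) x := by
    rw [← h0]
    rcases le_total x y with hxy | hxy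
    · have hanti : AntitoneOn
          (fun z => Df b z - Df b y - D1 b y * (Real.tanh z ^ 2 - Real.tanh y ^ 2)) (Icc x y) := by
        refine antitoneOn_of_deriv_nonpos (convex_Icc x y)
          (fun z hz => (hZ z (hx.trans_le hz.1)).continuousAt.continuousWithinAt)
          (fun z hz => ?_) (fun z hz => ?_)
        · rw [interior_Icc] at hz
          exact (hZ z (hx.trans hz.1)).differentiableAt.differentiableWithinAt
        · rw [interior_Icc] at hz
          have hz0 := hx.trans hz.1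
          rw [(hZ z hz0).deriv]
          have h1 := tanh_pos hz0
          have h2 := one_sub_sq_pos z
          have h3 : D1 b z ≤ D1 b y := hmono hz0 hy hz.2.le
          exact mul_nonpos_of_nonneg_of_nonpos (by positivity) (by linarith)
      exact hanti ⟨le_rfl, hxy⟩ ⟨hxy, le_rfl⟩ hxy
    · have hm : MonotoneOn
          (fun z => Df b z - Df b y - D1 b y * (Real.tanh z ^ 2 - Real.tanh y ^ 2)) (Icc y x) := by
        refine monotoneOn_of_deriv_nonneg (convex_Icc y x)
          (fun z hz => (hZ z (hy.trans_le hz.1)).continuousAt.continuousWithinAt)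
          (fun z hz => ?_) (fun z hz => ?_)
        · rw [interior_Icc] at hz
          exact (hZ z (hy.trans hz.1)).differentiableAt.differentiableWithinAt
        · rw [interior_Icc] at hz
          have hz0 := hy.trans hz.1
          rw [(hZ z hz0).deriv]
          have h1 := tanh_pos hz0
          have h2 := one_sub_sq_pos z
          have h3 : D1 b y ≤ D1 b z := hmono hy hz0 hz.1.le
          exact mul_nonneg (by positivity) (by linarith)
      exact hm ⟨le_rfl, hxy⟩ ⟨hxy, le_rfl⟩ hxy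
  simp only at key
  linarith

end

end SchK
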