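import Pool.Agent.LibSchK.K4

/-!
# The kernel `K = 2 sinh r coth (b r / 2)` as a function of `X = cosh r` (`r = 2 x`)

`(X - 1) ^ 2 / (T₁ - K)` is concave in `X`, where `T₁` is the tangent at `X = 1`; equivalently
`q / (w - w₀)` is concave in `q = tanh (r / 2) ^ 2`; equivalently
`(T₁ - K) (T₀ - K) ≥ (chord - K) ^ 2`.
-/

open Set Filter Topology

namespace SchK

/-- the kernel `2 sinh r coth (b r / 2)`, `r = 2 x` -/
noncomputable def Kf (b x : ℝ) : ℝ :=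
  2 * Real.sinh (2 * x) * (Real.cosh (b * x) / Real.sinh (b * x))

theorem one_sub_tanh (x : ℝ) : 1 - Real.tanh x ^ 2 = 1 / Real.cosh x ^ 2 := by
  have hc := (Real.cosh_pos x).ne'
  have h1 := Real.cosh_sq x
  rw [Real.tanh_eq_sinh_div_cosh, div_pow, eq_div_iff (pow_ne_zero 2 hc), sub_mul,
    div_mul_cancel₀ _ (pow_ne_zero 2 hc)]
  linarith

theorem cosh_two (x : ℝ) : Real.cosh (2 * x) = (1 + Real.tanh x ^ 2) / (1 - Real.tanh x ^ 2) := by
  have hc := (Real.cosh_pos x).ne'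
  rw [one_sub_tanh, Real.cosh_two_mul, Real.tanh_eq_sinh_div_cosh]
  field_simp

theorem sinh_two (x : ℝ) : Real.sinh (2 * x) = 2 * Real.tanh x / (1 - Real.tanh x ^ 2) := by
  have hc := (Real.cosh_pos x).ne'
  rw [one_sub_tanh, Real.sinh_two_mul, Real.tanh_eq_sinh_div_cosh]
  field_simp

section

variable {b : ℝ} (hb0 : 0 < b) (hb1 : b < 1)

/-- `F = 3 Y - (4 - b ^ 2) q`, proportional to `q / (w - w₀)` -/
noncomputable def Ff (b x : ℝ) : ℝ := 3 * Yf b x - (4 - b ^ 2) * Real.tanh x ^ 2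

/-- the derivative of `F` with respect to `q` -/
noncomputable def F1 (b x : ℝ) : ℝ := -3 * D1 b x - (4 - b ^ 2)

include hb0 in
theorem Kf_eq {x : ℝ} (hx : 0 < x) :
    Kf b x = 4 / b * (1 - Nf b x) / (1 - Real.tanh x ^ 2) := by
  have hd := (one_sub_sq_pos x).ne'
  have hb := hb0.ne'
  rw [Kf, Nf, sinh_two]
  field_simp
  ring

include hb0 hb1 in
theorem F_mul {x : ℝ} (hx : 0 < x) : Ff b x * (3 * Nf b x - (1 - b ^ 2) * Real.tanh x ^ 2) =
    (4 - b ^ 2) * (1 - b ^ 2) * Real.tanh x ^ 4 := by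
  have hd := (den_pos hb0 hb1 hx).ne'
  rw [Ff, Yf, sub_mul, mul_assoc 3, div_mul_cancel₀ _ hd]
  ring

include hb0 hb1 in
theorem F_pos {x : ℝ} (hx : 0 < x) : 0 < Ff b x := by
  have hd := den_pos hb0 hb1 hx
  have h1 := F_mul hb0 hb1 hx
  have ht := tanh_pos hx
  have hb2 : b ^ 2 < 1 := by nlinarith
  have h2 : 0 < (4 - b ^ 2) * (1 - b ^ 2) * Real.tanh x ^ 4 := by
    have h3 : 0 < 4 - b ^ 2 := by linarith
    have h4 : 0 < 1 - b ^ 2 := by linarith
    positivity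
  rw [← h1] at h2
  exact (pos_iff_pos_of_mul_pos h2).2 hd

include hb0 hb1 in
/-- the distance of `K` to its tangent at `X = 1` -/
theorem tangent_sub {x : ℝ} (hx : 0 < x) :
    4 / b + (4 + 2 * b ^ 2) / (3 * b) * (Real.cosh (2 * x) - 1) - Kf b x =
    4 * (1 - b ^ 2) * (4 - b ^ 2) / (3 * b) * Real.tanh x ^ 4 /
      ((1 - Real.tanh x ^ 2) * Ff b x) := by
  have hd := (den_pos hb0 hb1 hx).ne'
  have h1 := F_mul hb0 hb1 hx
  have hF := (F_pos hb0 hb1 hx).ne'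
  have hq := (one_sub_sq_pos x).ne'
  have hb := hb0.ne'
  have e : 4 * (1 - b ^ 2) * (4 - b ^ 2) / (3 * b) * Real.tanh x ^ 4 /
      ((1 - Real.tanh x ^ 2) * Ff b x) =
      4 / (3 * b) * (3 * Nf b x - (1 - b ^ 2) * Real.tanh x ^ 2) / (1 - Real.tanh x ^ 2) := by
    rw [div_eq_div_iff (mul_ne_zero hq hF) hq]
    linear_combination (-(4 / (3 * b) * (1 - Real.tanh x ^ 2))) * h1
  rw [e, Kf_eq hb0 hx, cosh_two]
  field_simp
  ring

include hb0 hb1 in
/-- **concavity of `q / (w - w₀)`** -/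
theorem F_tangent {x y : ℝ} (hx : 0 < x) (hy : 0 < y) :
    Ff b x ≤ Ff b y + F1 b y * (Real.tanh x ^ 2 - Real.tanh y ^ 2) := by
  have h := D_tangent hb0 hb1 hx hy
  rw [Df, Df] at h
  rw [Ff, Ff, F1]
  linarith

include hb0 hb1 in
theorem F1_neg {y : ℝ} (hy : 0 < y) : F1 b y < 0 := by
  have h := D1_nonneg hb0 hb1 hy
  rw [F1]
  nlinarith

/-- the function `w` -/
noncomputable def wf (b x : ℝ) : ℝ :=
  (4 / b * Real.cosh (2 * x) - Kf b x) / (2 * (Real.cosh (2 * x) - 1))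

include hb0 hb1 in
theorem wf_sub {x : ℝ} (hx : 0 < x) : wf b x - (4 - b ^ 2) / (3 * b) =
    (1 - b ^ 2) * (4 - b ^ 2) / (3 * b) * Real.tanh x ^ 2 / Ff b x := by
  have h1 := tangent_sub hb0 hb1 hx
  have hF := (F_pos hb0 hb1 hx).ne'
  have hq := (one_sub_sq_pos x).ne'
  have ht := (tanh_pos hx).ne'
  have hb := hb0.ne'
  have hX : Real.cosh (2 * x) - 1 = 2 * Real.tanh x ^ 2 / (1 - Real.tanh x ^ 2) := by
    rw [cosh_two]; field_simp; ring
  have hX0 : Real.cosh (2 * x) - 1 ≠ 0 := by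
    rw [hX]; positivity
  have e : wf b x - (4 - b ^ 2) / (3 * b) =
      (4 / b + (4 + 2 * b ^ 2) / (3 * b) * (Real.cosh (2 * x) - 1) - Kf b x) /
        (2 * (Real.cosh (2 * x) - 1)) := by
    rw [wf]
    field_simp
    ring
  rw [e, h1, hX]
  field_simp
  ring

/-- the derivative of `K` with respect to `X` at `y`, by the Riccati equation -/
noncomputable def K1 (b y : ℝ) : ℝ :=
  (Real.cosh (2 * y) * Kf b y - b / 4 * Kf b y ^ 2 + b * (Real.cosh (2 * y) ^ 2 - 1)) /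
    (Real.cosh (2 * y) ^ 2 - 1)

end

end SchK
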